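import Pool.Agent.Y773.HG.Defs
import Pool.Agent.N912.ED.W78EGDefs

/-!
# Project RC (helper912): the prime number theorem in the ray classes of an imaginary quadratic field,
and the function `b^Ω(N z)` on all imaginary quadratic orders. Statements of the parts.
-/

set_option autoImplicit false

namespace Pool.Agent.N912.RC

open NumberField Filter Finset
open Pool.Agent.Y773 (LI VM cc TPos)
open Pool.Agent.Y773.G (IsModChar)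
open Pool.Agent.W78.GA (Qd nm ball)

/-- RC0: the order `Qd t c` in the ring of integers -/
def S_RC0 : Prop := ∀ t c : ℤ, t ^ 2 < 4 * c → ∃ (K : Type) (_ : Field K) (_ : NumberField K)
  (_ : IsTotallyComplex K) (φ : Qd t c →+* 𝓞 K) (f₀ : ℕ), Module.finrank ℚ K = 2 ∧
    1 ≤ f₀ ∧ Function.Injective φ ∧ (∀ z, Ideal.absNorm (Ideal.span {φ z}) = nm z) ∧
    ∀ w : 𝓞 K, ∃ z, φ z = (f₀ : 𝓞 K) * w

/-- RC1: the prime number theorem for the ray class characters of a number field -/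
def S_RC1 : Prop := ∀ (K : Type) [Field K] [NumberField K] (𝔪 : Ideal (𝓞 K))
  (e : InfinitePlace K → ℕ) (η : Ideal (𝓞 K) →*₀ ℂ), IsModChar 𝔪 e η →
  ∃ δ : ℝ, (δ = 0 ∨ δ = 1) ∧ ((∃ 𝔞, IsCoprime 𝔞 𝔪 ∧ η 𝔞 ≠ 1) → δ = 0) ∧
    ((∀ 𝔞, IsCoprime 𝔞 𝔪 → η 𝔞 = 1) → δ = 1) ∧
    Tendsto (fun x : ℝ => (∑ n ∈ Icc 1 ⌊x⌋₊, (ArithmeticFunction.vonMangoldt n : ℂ) * cc η n) /
      (x : ℂ)) atTop (nhds (δ : ℂ))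

open scoped Classical in
/-- the nonzero ideals of norm at most `x` -/
noncomputable def IX (K : Type) [Field K] [NumberField K] (x : ℝ) : Finset (Ideal (𝓞 K)) :=
  (Ideal.finite_setOfPred_absNorm_le (S := 𝓞 K) ⌊x⌋₊).toFinset.filter (fun 𝔞 => 𝔞 ≠ ⊥)

/-- RC2: the mean value of `b^Ω(N 𝔞)` times a ray class character -/
def S_RC2 : Prop := ∀ (K : Type) [Field K] [NumberField K] (𝔪 : Ideal (𝓞 K))
  (e : InfinitePlace K → ℕ) (η : Ideal (𝓞 K) →*₀ ℂ), IsModChar 𝔪 e η →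
  ∀ (N : ℕ) (b : ℂ), 1 ≤ N → b ^ N = 1 → b ≠ 1 → ∀ ε : ℝ, 0 < ε → ∃ X₀ : ℝ, ∀ X : ℝ, X₀ ≤ X →
    ‖∑ 𝔞 ∈ IX K X, η 𝔞 * b ^ ArithmeticFunction.cardFactors (Ideal.absNorm 𝔞)‖ ≤ ε * X

/-- functions of the ray classes modulo `𝔪`, zero on the ideals which are not prime to `𝔪` -/
structure CF {K : Type} [Field K] [NumberField K] (𝔪 : Ideal (𝓞 K)) (F : Ideal (𝓞 K) → ℂ) :
    Prop where
  supp : ∀ 𝔞 : Ideal (𝓞 K), ¬ IsCoprime 𝔞 𝔪 → F 𝔞 = 0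
  cls : ∀ (𝔞 𝔟 : Ideal (𝓞 K)) (x y : 𝓞 K), IsCoprime 𝔞 𝔪 → IsCoprime 𝔟 𝔪 → x ≠ 0 → y ≠ 0 →
    x - 1 ∈ 𝔪 → y - 1 ∈ 𝔪 → Ideal.span {x} * 𝔞 = Ideal.span {y} * 𝔟 → F 𝔞 = F 𝔟

/-- RC3: class functions are sums of characters (`K` imaginary quadratic) -/
def S_RC3 : Prop := ∀ (K : Type) [Field K] [NumberField K] [IsTotallyComplex K],
  Module.finrank ℚ K = 2 → ∀ (𝔪 : Ideal (𝓞 K)), 𝔪 ≠ ⊥ → 𝔪 ≠ ⊤ → ∀ F : Ideal (𝓞 K) → ℂ, CF 𝔪 F →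
  ∃ (n : ℕ) (η : Fin (n + 1) → (Ideal (𝓞 K) →*₀ ℂ)) (a : Fin (n + 1) → ℂ),
    (∀ i, IsModChar 𝔪 (fun _ => 0) (η i)) ∧ (∀ 𝔞, IsCoprime 𝔞 𝔪 → η 0 𝔞 = 1) ∧
    (∀ i, i ≠ 0 → ∃ 𝔞, IsCoprime 𝔞 𝔪 ∧ η i 𝔞 ≠ 1) ∧
    (∀ 𝔞, F 𝔞 = ∑ i, a i * η i 𝔞) ∧
    ((∀ 𝔞, 0 ≤ (F 𝔞).re ∧ (F 𝔞).im = 0) → F ⊤ ≠ 0 → 0 < (a 0).re ∧ (a 0).im = 0)

/-- RC4: mean value zero on the residue classes of the maximal order -/
def S_RC4 : Prop := ∀ (K : Type) [Field K] [NumberField K] [IsTotallyComplex K],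
  Module.finrank ℚ K = 2 → ∀ (N : ℕ) (b : ℂ), 1 ≤ N → b ^ N = 1 → b ≠ 1 →
  ∀ (m : ℕ) (ρ : 𝓞 K), 1 ≤ m → ∀ ε : ℝ, 0 < ε → ∃ X₀ : ℝ, ∀ X : ℝ, X₀ ≤ X →
    ‖∑ᶠ z ∈ {z : 𝓞 K | z ≠ 0 ∧ (Ideal.absNorm (Ideal.span {z}) : ℝ) ≤ X ∧ (m : 𝓞 K) ∣ z - ρ},
      b ^ ArithmeticFunction.cardFactors (Ideal.absNorm (Ideal.span {z}))‖ ≤ ε * X

/-- RC5: `b^Ω(N z)` is aperiodic on every imaginary quadratic order -/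
def S_RC5 : Prop := ∀ t c : ℤ, t ^ 2 < 4 * c → Pool.Agent.N912.ED.W78EG.S_PNTX t c

open scoped Classical in
/-- RC6: the primes represented by the principal form have positive density -/
def S_RC6 : Prop := ∀ t c : ℤ, t ^ 2 < 4 * c → ∃ ρ : ℝ, 0 < ρ ∧
  Tendsto (fun x : ℝ => (∑ p ∈ (Icc 1 ⌊x⌋₊).filter (fun p => p.Prime ∧ ∃ ϖ : Qd t c, nm ϖ = p),
    Real.log p) / x) atTop (nhds ρ)

end Pool.Agent.N912.RC
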